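import Mathlib

set_option autoImplicit false

/-!
# Clustered 2-colouring of graphs of girth at least 7: the combinatorial core

A state consists of a vertex set `A`, a set `Y` of frozen vertices, a set `S` of pending vertices
and a colouring `φ`.
-/

namespace Pool.Agent.H572Z.Cl

open Finset

variable {V : Type*} [DecidableEq V] (G : SimpleGraph V)

/-- Every vertex of `A` outside `Y ∪ S` has a colour different from its neighbours in `Y`. -/
def Good (A Y S : Finset V) (φ : V → Bool) : Prop :=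
  ∀ v ∈ A, v ∉ Y → v ∉ S → ∀ y ∈ Y, G.Adj v y → φ v ≠ φ y

/-- `C` is a union of monochromatic components of the graph induced on `A \ Y`. -/
def Closed (A Y : Finset V) (ψ : V → Bool) (C : Finset V) : Prop :=
  (∀ u ∈ C, u ∈ A ∧ u ∉ Y) ∧
    ∀ u ∈ C, ∀ w ∈ A, w ∉ Y → G.Adj u w → ψ u = ψ w → w ∈ C

/-- The conclusion of the induction. -/
def Ext (A Y S : Finset V) (φ : V → Bool) (d c : ℕ) : Prop :=
  ∃ ψ : V → Bool, (∀ v, v ∈ Y ∨ v ∈ S → ψ v = φ v) ∧ Good G A Y S ψ ∧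
    (∃ D : Finset V, (∀ s ∈ S, s ∉ Y → s ∈ D) ∧ D.card ≤ d ∧ Closed G A Y ψ D) ∧
    ∀ v ∈ A, v ∉ Y → ∃ C : Finset V, v ∈ C ∧ C.card ≤ c ∧ Closed G A Y ψ C

/-- The local consequences of girth at least seven that are used. -/
structure NoShort : Prop where
  tri : ∀ a b c : V, G.Adj a b → G.Adj b c → G.Adj c a → False
  quad : ∀ a b x y : V, a ≠ b → G.Adj x a → G.Adj x b → G.Adj y a → G.Adj y b → x = y
  hex : ∀ a b c d e f : V, G.Adj a b → G.Adj b c → G.Adj c d → G.Adj d e → G.Adj e f →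
    G.Adj f a → a ≠ c → a ≠ d → a ≠ e → b ≠ d → b ≠ e → b ≠ f → c ≠ e → c ≠ f → d ≠ f → False

/-- Small separators that split every large set. -/
def Sep (θ b : ℕ) : Prop :=
  ∀ W : Finset V, θ < W.card → ∃ P X : Finset V, X.card ≤ b ∧ Disjoint P X ∧
    (∀ u ∈ P, ∀ w, G.Adj u w → w ∈ P ∨ w ∈ X) ∧ b < (W ∩ P).card ∧ b < (W \ P).card

variable {G}

omit [DecidableEq V] in
lemma NoShort.path3 (h : NoShort G) {y y' z z' w w' : V}
    (h1 : G.Adj z y) (h2 : G.Adj z z') (h3 : G.Adj z' y') (h4 : G.Adj w y) (h5 : G.Adj w w')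
    (h6 : G.Adj w' y') (a1 : y ≠ z') (a2 : y ≠ w') (a3 : y' ≠ z) (a4 : y' ≠ w) : z = w := by
  by_contra hzw
  have hyy : y ≠ y' := by
    rintro rfl
    exact h.tri _ _ _ h1.symm h2 h3
  by_cases hz : z' = w'
  · subst hz
    exact hzw (h.quad y z' z w a1 h1 h2 h4 h5)
  · refine h.hex y z z' y' w' w h1.symm h2 h3 h6.symm h5.symm h4 a1 hyy a2 a3.symm ?_ hzw hz ?_ a4
    · rintro rfl
      exact h.tri _ _ _ h2 h3 h6.symm
    · rintro rfl
      exact h.tri _ _ _ h1.symm h2 h4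

/-- The growth function of one closing step. -/
def grow (t : ℕ) : ℕ := t + 2 * (t * t)

lemma grow_mono {s t : ℕ} (h : s ≤ t) : grow s ≤ grow t := by
  unfold grow
  have := Nat.mul_le_mul h h
  omega

lemma le_grow (t : ℕ) : t ≤ grow t := by
  unfold grow
  omega

/-- Freezing all pending vertices of one colour. -/
lemma close_one (h : NoShort G) (A Y S : Finset V) (φ : V → Bool) (hY : Y ⊆ A) (hS : S ⊆ A)
    (hg : Good G A Y S φ) (col : Bool) :
    ∃ (Y' : Finset V) (φ' : V → Bool), Y ⊆ Y' ∧ Y' ⊆ A ∧ (∀ s ∈ S, φ s = col → s ∈ Y') ∧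
      (Y' ∪ S).card ≤ grow (Y ∪ S).card ∧ (∀ v, v ∈ Y ∨ v ∈ S → φ' v = φ v) ∧
      Good G A Y S φ' ∧ Good G A Y' S φ' := by
  classical
  -- vertices forced to have the colour `col`
  let F : Finset V := A.filter (fun v => v ∉ Y ∧ v ∉ S ∧ ∃ y ∈ Y, G.Adj v y ∧ φ y ≠ col)
  let Z1 : Finset V := F.filter (fun z => ∃ s ∈ S, φ s = col ∧ G.Adj z s)
  let Z2 : Finset V := F.filter (fun z => ∃ z' ∈ F, G.Adj z z')
  have hF : ∀ v, v ∈ F ↔ v ∈ A ∧ v ∉ Y ∧ v ∉ S ∧ ∃ y ∈ Y, G.Adj v y ∧ φ y ≠ col := by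
    intro v; simp [F]
  have hFcol : ∀ v ∈ F, φ v = col := by
    intro v hv
    obtain ⟨h1, h2, h3, y, hy, hadj, hc⟩ := (hF v).1 hv
    have := hg v h1 h2 h3 y hy hadj
    revert this hc
    cases φ v <;> cases φ y <;> cases col <;> simp
  have hZ1 : Z1.card ≤ (Y ∪ S).card * (Y ∪ S).card := by
    have hex : ∀ z : V, ∃ p : V × V, z ∈ Z1 → p.1 ∈ Y ∧ p.2 ∈ S ∧ G.Adj z p.1 ∧ G.Adj z p.2 ∧
        p.1 ≠ p.2 := by
      intro z
      by_cases hz : z ∈ Z1
      · obtain ⟨hzF, s, hs, hsc, hzs⟩ := Finset.mem_filter.1 hz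
        obtain ⟨-, -, -, y, hy, hadj, hc⟩ := (hF z).1 hzF
        refine ⟨(y, s), fun _ => ⟨hy, hs, hadj, hzs, ?_⟩⟩
        intro hys
        have hys' : y = s := hys
        exact hc (hys' ▸ hsc)
      · exact ⟨(z, z), fun h' => absurd h' hz⟩
    choose p hp using hex
    rw [← Finset.card_product]
    refine Finset.card_le_card_of_injOn p (fun z hz => ?_) (fun z hz w hw hzw => ?_)
    · obtain ⟨h1, h2, -⟩ := hp z hz
      simp only [Finset.coe_product, Set.mem_prod, Finset.mem_coe, Finset.mem_union]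
      exact ⟨Or.inl h1, Or.inr h2⟩
    · obtain ⟨-, -, h3, h4, h5⟩ := hp z hz
      obtain ⟨-, -, h3', h4', -⟩ := hp w hw
      rw [← hzw] at h3' h4'
      exact h.quad _ _ z w h5 h3 h4 h3' h4'
  have hZ2 : Z2.card ≤ (Y ∪ S).card * (Y ∪ S).card := by
    have hex : ∀ z : V, ∃ p : V × V, z ∈ Z2 → p.1 ∈ Y ∧ p.2 ∈ Y ∧ z ∉ Y ∧ G.Adj z p.1 ∧
        ∃ z', z' ∉ Y ∧ G.Adj z z' ∧ G.Adj z' p.2 := by
      intro z
      by_cases hz : z ∈ Z2
      · obtain ⟨hzF, z', hz', hzz⟩ := Finset.mem_filter.1 hz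
        obtain ⟨-, hzY, -, y, hy, hadj, -⟩ := (hF z).1 hzF
        obtain ⟨-, hzY', -, y', hy', hadj', -⟩ := (hF z').1 hz'
        exact ⟨(y, y'), fun _ => ⟨hy, hy', hzY, hadj, z', hzY', hzz, hadj'⟩⟩
      · exact ⟨(z, z), fun h' => absurd h' hz⟩
    choose p hp using hex
    rw [← Finset.card_product]
    refine Finset.card_le_card_of_injOn p (fun z hz => ?_) (fun z hz w hw hzw => ?_)
    · obtain ⟨h1, h2, -⟩ := hp z hz
      simp only [Finset.coe_product, Set.mem_prod, Finset.mem_coe, Finset.mem_union]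
      exact ⟨Or.inl h1, Or.inl h2⟩
    · obtain ⟨h1, h2, h3, h4, z', h5, h6, h7⟩ := hp z hz
      obtain ⟨-, -, h3', h4', w', h5', h6', h7'⟩ := hp w hw
      rw [← hzw] at h4' h7'
      refine h.path3 h4 h6 h7 h4' h6' h7' ?_ ?_ ?_ ?_
      · rintro hh; exact h5 (hh ▸ h1)
      · rintro hh; exact h5' (hh ▸ h1)
      · rintro hh; exact h3 (hh ▸ h2)
      · rintro hh; exact h3' (hh ▸ h2)
  let φ' : V → Bool := fun v => if v ∈ Y ∨ v ∈ S ∨ v ∈ F then φ v else !col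
  have hφ1 : ∀ v, v ∈ Y ∨ v ∈ S → φ' v = φ v := by
    intro v hv
    have : v ∈ Y ∨ v ∈ S ∨ v ∈ F := by tauto
    simp only [φ', if_pos this]
  have hφ2 : ∀ v ∈ F, φ' v = col := by
    intro v hv
    have : v ∈ Y ∨ v ∈ S ∨ v ∈ F := by tauto
    simp only [φ', if_pos this]
    exact hFcol v hv
  have hφ3 : ∀ v, v ∉ Y → v ∉ S → v ∉ F → φ' v = !col := by
    intro v h1 h2 h3
    have : ¬ (v ∈ Y ∨ v ∈ S ∨ v ∈ F) := by tauto
    simp only [φ', if_neg this]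
  have hgood : Good G A Y S φ' := by
    intro v hvA hvY hvS y hy hadj
    rw [hφ1 y (Or.inl hy)]
    by_cases hvF : v ∈ F
    · rw [hφ2 v hvF, ← hFcol v hvF]
      exact hg v hvA hvY hvS y hy hadj
    · rw [hφ3 v hvY hvS hvF]
      have : φ y = col := by
        by_contra hc
        exact hvF ((hF v).2 ⟨hvA, hvY, hvS, y, hy, hadj, hc⟩)
      rw [this]
      cases col <;> simp
  refine ⟨Y ∪ S.filter (fun s => φ s = col) ∪ (Z1 ∪ Z2), φ', ?_, ?_, ?_, ?_, hφ1, hgood, ?_⟩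
  · intro y hy; simp [hy]
  · intro v hv
    simp only [Finset.mem_union, Finset.mem_filter] at hv
    rcases hv with (hv | hv) | hv | hv
    · exact hY hv
    · exact hS hv.1
    · exact ((hF v).1 (Finset.mem_filter.1 hv).1).1
    · exact ((hF v).1 (Finset.mem_filter.1 hv).1).1
  · intro s hs hc; simp [hs, hc]
  · have hsub : Y ∪ S.filter (fun s => φ s = col) ∪ (Z1 ∪ Z2) ∪ S ⊆ (Y ∪ S) ∪ (Z1 ∪ Z2) := by
      intro v hv
      simp only [Finset.mem_union, Finset.mem_filter] at hv ⊢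
      tauto
    have h1 := Finset.card_le_card hsub
    have h2 := Finset.card_union_le (Y ∪ S) (Z1 ∪ Z2)
    have h3 := Finset.card_union_le Z1 Z2
    unfold grow
    omega
  · intro v hvA hvY hvS y hy hadj
    simp only [Finset.mem_union, Finset.mem_filter, not_or] at hvY hy
    obtain ⟨⟨hv1, -⟩, hv2, hv3⟩ := hvY
    rcases hy with (hy | hy) | hy
    · exact hgood v hvA hv1 hvS y hy hadj
    · by_cases hvF : v ∈ F
      · exact absurd (Finset.mem_filter.2 ⟨hvF, y, hy.1, hy.2, hadj⟩) hv2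
      · rw [hφ3 v hv1 hvS hvF, hφ1 y (Or.inr hy.1), hy.2]
        cases col <;> simp
    · have hyF : y ∈ F := by
        rcases hy with hy | hy <;> exact (Finset.mem_filter.1 hy).1
      by_cases hvF : v ∈ F
      · exact absurd (Finset.mem_filter.2 ⟨hvF, y, hyF, hadj⟩) hv3
      · rw [hφ3 v hv1 hvS hvF, hφ2 y hyF]
        cases col <;> simp

/-- Freezing all pending vertices. -/
lemma close_step (h : NoShort G) (A Y S : Finset V) (φ : V → Bool) (hY : Y ⊆ A) (hS : S ⊆ A)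
    (hg : Good G A Y S φ) :
    ∃ (Y' : Finset V) (φ' : V → Bool), Y ⊆ Y' ∧ S ⊆ Y' ∧ Y' ⊆ A ∧
      Y'.card ≤ grow (grow (Y ∪ S).card) ∧ (∀ v, v ∈ Y ∨ v ∈ S → φ' v = φ v) ∧
      Good G A Y S φ' ∧ Good G A Y' ∅ φ' := by
  obtain ⟨Y1, φ1, a1, a2, a3, a4, a5, a6, a7⟩ := close_one h A Y S φ hY hS hg true
  obtain ⟨Y2, φ2, b1, b2, b3, b4, b5, b6, b7⟩ := close_one h A Y1 S φ1 a2 hS a7 false
  have hSY : S ⊆ Y2 := by
    intro s hs
    cases hc : φ s
    · exact b3 s hs (by rw [a5 s (Or.inr hs), hc])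
    · exact b1 (a3 s hs hc)
  refine ⟨Y2, φ2, a1.trans b1, hSY, b2, ?_, ?_, ?_, ?_⟩
  · exact (Finset.card_le_card Finset.subset_union_left).trans (b4.trans (grow_mono a4))
  · intro v hv
    rw [b5 v (hv.imp_left (fun hv => a1 hv)), a5 v hv]
  · intro v hvA hvY hvS y hy hadj
    by_cases hv1 : v ∈ Y1
    · rw [b5 v (Or.inl hv1), b5 y (Or.inl (a1 hy))]
      exact a6 v hvA hvY hvS y hy hadj
    · exact b6 v hvA hv1 hvS y (a1 hy) hadj
  · intro v hvA hvY _ y hy hadj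
    exact b7 v hvA hvY (fun hs => hvY (hSY hs)) y hy hadj

/-- Gluing: the union of the two closed sets containing the separator is closed. -/
lemma closed_union_half {A A1 A2 Y : Finset V} {ψ : V → Bool} {D1 D2 : Finset V}
    (hA : ∀ v ∈ A, v ∈ A1 ∨ v ∈ A2)
    (hsep : ∀ u ∈ A1, ∀ w ∈ A2, G.Adj u w → u ∈ A2 ∨ w ∈ A1)
    (h1 : Closed G A1 (Y ∩ A1) ψ D1) (h2 : Closed G A2 (Y ∩ A2) ψ D2)
    (hX : ∀ u ∈ A1, u ∈ A2 → u ∉ Y → u ∈ D2) :
    ∀ u ∈ D1, ∀ w ∈ A, w ∉ Y → G.Adj u w → ψ u = ψ w → w ∈ D1 ∪ D2 := by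
  intro u hu w hwA hwY hadj hc
  obtain ⟨huA, huY⟩ := h1.1 u hu
  have huY' : u ∉ Y := fun h => huY (Finset.mem_inter.2 ⟨h, huA⟩)
  by_cases hw1 : w ∈ A1
  · exact Finset.mem_union_left _
      (h1.2 u hu w hw1 (fun h => hwY (Finset.mem_inter.1 h).1) hadj hc)
  · have hw2 : w ∈ A2 := (hA w hwA).resolve_left hw1
    have hu2 : u ∈ A2 := (hsep u huA w hw2 hadj).resolve_right hw1
    exact Finset.mem_union_right _
      (h2.2 u (hX u huA hu2 huY') w hw2 (fun h => hwY (Finset.mem_inter.1 h).1) hadj hc)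

/-- Gluing: a closed set of one side, minus the closed set containing the separator. -/
lemma closed_sdiff_half {A A1 A2 Y : Finset V} {ψ : V → Bool} {C D : Finset V}
    (hA1 : A1 ⊆ A) (hA : ∀ v ∈ A, v ∈ A1 ∨ v ∈ A2)
    (hsep : ∀ u ∈ A1, ∀ w ∈ A2, G.Adj u w → u ∈ A2 ∨ w ∈ A1)
    (h1 : Closed G A1 (Y ∩ A1) ψ C) (hD : Closed G A Y ψ D)
    (hX : ∀ u ∈ A1, u ∈ A2 → u ∉ Y → u ∈ D) : Closed G A Y ψ (C \ D) := by
  have hmem : ∀ u ∈ C, u ∈ A1 ∧ u ∉ Y := by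
    intro u hu
    obtain ⟨huA, huY⟩ := h1.1 u hu
    exact ⟨huA, fun h => huY (Finset.mem_inter.2 ⟨h, huA⟩)⟩
  refine ⟨fun u hu => ?_, fun u hu w hwA hwY hadj hc => ?_⟩
  · obtain ⟨h3, h4⟩ := hmem u (Finset.mem_sdiff.1 hu).1
    exact ⟨hA1 h3, h4⟩
  · obtain ⟨huC, huD⟩ := Finset.mem_sdiff.1 hu
    obtain ⟨h3, h4⟩ := hmem u huC
    have hwD : w ∉ D := fun hw => huD (hD.2 w hw u (hA1 h3) h4 hadj.symm hc.symm)
    have hw1 : w ∈ A1 := by
      by_contra hw1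
      have hw2 : w ∈ A2 := (hA w hwA).resolve_left hw1
      exact huD (hX u h3 ((hsep u h3 w hw2 hadj).resolve_right hw1) h4)
    exact Finset.mem_sdiff.2
      ⟨h1.2 u huC w hw1 (fun h => hwY (Finset.mem_inter.1 h).1) hadj hc, hwD⟩

omit [DecidableEq V] in
lemma Closed.congr {A Y C : Finset V} {ψ ψ' : V → Bool} (h : Closed G A Y ψ C)
    (he : ∀ v ∈ A, ψ' v = ψ v) : Closed G A Y ψ' C := by
  refine ⟨h.1, fun u hu w hwA hwY hadj hc => h.2 u hu w hwA hwY hadj ?_⟩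
  rw [← he u (h.1 u hu).1, ← he w hwA, hc]

/-- The splitting step. -/
lemma split_step {A A1 A2 Y S : Finset V} {φ : V → Bool} {d1 d2 d c : ℕ}
    (hA1 : A1 ⊆ A) (hA2 : A2 ⊆ A) (hA : ∀ v ∈ A, v ∈ A1 ∨ v ∈ A2) (hY : Y ⊆ A) (hS : S ⊆ A)
    (hsep : ∀ u ∈ A1, ∀ w ∈ A2, G.Adj u w → u ∈ A2 ∨ w ∈ A1)
    (hg : Good G A Y S φ)
    (e1 : Ext G A1 (Y ∩ A1) ((S ∩ A1) ∪ (A1 ∩ A2)) φ d1 c)
    (e2 : Ext G A2 (Y ∩ A2) ((S ∩ A2) ∪ (A1 ∩ A2)) φ d2 c)
    (hd : d1 + d2 ≤ d) (hdc : d ≤ c) : Ext G A Y S φ d c := by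
  obtain ⟨ψ1, p1, g1, ⟨D1, s1, c1, k1⟩, q1⟩ := e1
  obtain ⟨ψ2, p2, g2, ⟨D2, s2, c2, k2⟩, q2⟩ := e2
  let ψ : V → Bool := fun v => if v ∈ A1 then ψ1 v else if v ∈ A2 then ψ2 v else φ v
  have hX1 : ∀ v ∈ A1, v ∈ A2 → ψ1 v = φ v := fun v h1 h2 =>
    p1 v (Or.inr (Finset.mem_union_right _ (Finset.mem_inter.2 ⟨h1, h2⟩)))
  have hX2 : ∀ v ∈ A1, v ∈ A2 → ψ2 v = φ v := fun v h1 h2 =>
    p2 v (Or.inr (Finset.mem_union_right _ (Finset.mem_inter.2 ⟨h1, h2⟩)))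
  have hψ1 : ∀ v ∈ A1, ψ v = ψ1 v := fun v hv => by simp only [ψ, if_pos hv]
  have hψ2 : ∀ v ∈ A2, ψ v = ψ2 v := by
    intro v hv
    by_cases h1 : v ∈ A1
    · rw [hψ1 v h1, hX1 v h1 hv, hX2 v h1 hv]
    · simp only [ψ, if_neg h1, if_pos hv]
  have hsep' : ∀ u ∈ A2, ∀ w ∈ A1, G.Adj u w → u ∈ A1 ∨ w ∈ A2 :=
    fun u hu w hw hadj => (hsep w hw u hu hadj.symm).symm
  have hA' : ∀ v ∈ A, v ∈ A2 ∨ v ∈ A1 := fun v hv => (hA v hv).symm
  have hagree : ∀ v, v ∈ Y ∨ v ∈ S → ψ v = φ v := by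
    intro v hv
    have hvA : v ∈ A := hv.elim (fun h => hY h) (fun h => hS h)
    rcases hA v hvA with h | h
    · rw [hψ1 v h]
      refine p1 v ?_
      simp only [Finset.mem_union, Finset.mem_inter]
      tauto
    · rw [hψ2 v h]
      refine p2 v ?_
      simp only [Finset.mem_union, Finset.mem_inter]
      tauto
  have k1' := k1.congr hψ1
  have k2' := k2.congr hψ2
  have hXD1 : ∀ u ∈ A2, u ∈ A1 → u ∉ Y → u ∈ D1 := fun u h2 h1 hy =>
    s1 u (Finset.mem_union_right _ (Finset.mem_inter.2 ⟨h1, h2⟩))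
      (fun h => hy (Finset.mem_inter.1 h).1)
  have hXD2 : ∀ u ∈ A1, u ∈ A2 → u ∉ Y → u ∈ D2 := fun u h1 h2 hy =>
    s2 u (Finset.mem_union_right _ (Finset.mem_inter.2 ⟨h1, h2⟩))
      (fun h => hy (Finset.mem_inter.1 h).1)
  have hD : Closed G A Y ψ (D1 ∪ D2) := by
    refine ⟨fun u hu => ?_, fun u hu => ?_⟩
    · rcases Finset.mem_union.1 hu with h | h
      · obtain ⟨h3, h4⟩ := k1.1 u h
        exact ⟨hA1 h3, fun hy => h4 (Finset.mem_inter.2 ⟨hy, h3⟩)⟩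
      · obtain ⟨h3, h4⟩ := k2.1 u h
        exact ⟨hA2 h3, fun hy => h4 (Finset.mem_inter.2 ⟨hy, h3⟩)⟩
    · rcases Finset.mem_union.1 hu with h | h
      · exact closed_union_half hA hsep k1' k2' hXD2 u h
      · rw [Finset.union_comm]
        exact closed_union_half hA' hsep' k2' k1' hXD1 u h
  have hDc : (D1 ∪ D2).card ≤ d := (Finset.card_union_le _ _).trans (by omega)
  refine ⟨ψ, hagree, ?_, ⟨D1 ∪ D2, ?_, hDc, hD⟩, ?_⟩
  · intro v hvA hvY hvS y hy hadj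
    by_cases h12 : v ∈ A1 ∧ v ∈ A2
    · rw [hψ1 v h12.1, hX1 v h12.1 h12.2, hagree y (Or.inl hy)]
      exact hg v hvA hvY hvS y hy hadj
    · rcases hA v hvA with h | h
      · have hv2 : v ∉ A2 := fun h' => h12 ⟨h, h'⟩
        have hy1 : y ∈ A1 := by
          rcases hA y (hY hy) with h' | h'
          · exact h'
          · exact (hsep v h y h' hadj).resolve_left hv2
        rw [hψ1 v h, hψ1 y hy1]
        refine g1 v h (fun h' => hvY (Finset.mem_inter.1 h').1) ?_ y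
          (Finset.mem_inter.2 ⟨hy, hy1⟩) hadj
        simp only [Finset.mem_union, Finset.mem_inter]
        tauto
      · have hv1 : v ∉ A1 := fun h' => h12 ⟨h', h⟩
        have hy2 : y ∈ A2 := by
          rcases hA y (hY hy) with h' | h'
          · exact (hsep' v h y h' hadj).resolve_left hv1
          · exact h'
        rw [hψ2 v h, hψ2 y hy2]
        refine g2 v h (fun h' => hvY (Finset.mem_inter.1 h').1) ?_ y
          (Finset.mem_inter.2 ⟨hy, hy2⟩) hadj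
        simp only [Finset.mem_union, Finset.mem_inter]
        tauto
  · intro s hs hsY
    rcases hA s (hS hs) with h | h
    · exact Finset.mem_union_left _ (s1 s (Finset.mem_union_left _ (Finset.mem_inter.2 ⟨hs, h⟩))
        (fun h' => hsY (Finset.mem_inter.1 h').1))
    · exact Finset.mem_union_right _ (s2 s (Finset.mem_union_left _ (Finset.mem_inter.2 ⟨hs, h⟩))
        (fun h' => hsY (Finset.mem_inter.1 h').1))
  · intro v hvA hvY
    by_cases hvD : v ∈ D1 ∪ D2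
    · exact ⟨D1 ∪ D2, hvD, hDc.trans hdc, hD⟩
    · rcases hA v hvA with h | h
      · obtain ⟨C, hvC, hCc, hC⟩ := q1 v h (fun h' => hvY (Finset.mem_inter.1 h').1)
        refine ⟨C \ (D1 ∪ D2), Finset.mem_sdiff.2 ⟨hvC, hvD⟩,
          (Finset.card_le_card Finset.sdiff_subset).trans hCc, ?_⟩
        exact closed_sdiff_half hA1 hA hsep (hC.congr hψ1) hD
          (fun u h1 h2 hy => Finset.mem_union_right _ (hXD2 u h1 h2 hy))
      · obtain ⟨C, hvC, hCc, hC⟩ := q2 v h (fun h' => hvY (Finset.mem_inter.1 h').1)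
        refine ⟨C \ (D1 ∪ D2), Finset.mem_sdiff.2 ⟨hvC, hvD⟩,
          (Finset.card_le_card Finset.sdiff_subset).trans hCc, ?_⟩
        exact closed_sdiff_half hA2 hA' hsep' (hC.congr hψ2) hD
          (fun u h2 h1 hy => Finset.mem_union_left _ (hXD1 u h2 h1 hy))

/-- The freezing step. -/
lemma freeze_step {A Y S Y' : Finset V} {φ φ' : V → Bool} {d d' c : ℕ}
    (h1 : Y ⊆ Y') (h2 : S ⊆ Y') (h3 : Y' ⊆ A) (hcard : Y'.card ≤ d) (hdc : d ≤ c)
    (hφ : ∀ v, v ∈ Y ∨ v ∈ S → φ' v = φ v) (hg : Good G A Y S φ')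
    (e : Ext G A Y' ∅ φ' d' c) : Ext G A Y S φ d c := by
  obtain ⟨ψ, p, g, -, q⟩ := e
  have hfro : ∀ v ∈ A, v ∉ Y' → ∀ y ∈ Y', G.Adj v y → ψ v ≠ ψ y :=
    fun v hv hv' y hy hadj => g v hv hv' (Finset.notMem_empty _) y hy hadj
  have hD : Closed G A Y ψ (Y' \ Y) := by
    refine ⟨fun u hu => ⟨h3 (Finset.mem_sdiff.1 hu).1, (Finset.mem_sdiff.1 hu).2⟩,
      fun u hu w hwA hwY hadj hc => Finset.mem_sdiff.2 ⟨?_, hwY⟩⟩
    by_contra hw
    exact hfro w hwA hw u (Finset.mem_sdiff.1 hu).1 hadj.symm hc.symm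
  have hDc : (Y' \ Y).card ≤ d := (Finset.card_le_card Finset.sdiff_subset).trans hcard
  refine ⟨ψ, fun v hv => ?_, ?_, ⟨Y' \ Y, fun s hs hsY => Finset.mem_sdiff.2 ⟨h2 hs, hsY⟩, hDc, hD⟩,
    ?_⟩
  · rw [p v (Or.inl (hv.elim (fun h => h1 h) (fun h => h2 h))), hφ v hv]
  · intro v hvA hvY hvS y hy hadj
    by_cases hv : v ∈ Y'
    · rw [p v (Or.inl hv), p y (Or.inl (h1 hy))]
      exact hg v hvA hvY hvS y hy hadj
    · exact hfro v hvA hv y (h1 hy) hadj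
  · intro v hvA hvY
    by_cases hv : v ∈ Y'
    · exact ⟨Y' \ Y, Finset.mem_sdiff.2 ⟨hv, hvY⟩, hDc.trans hdc, hD⟩
    · obtain ⟨C, hvC, hCc, hC⟩ := q v hvA hv
      refine ⟨C, hvC, hCc, fun u hu => ⟨(hC.1 u hu).1, fun h => (hC.1 u hu).2 (h1 h)⟩,
        fun u hu w hwA hwY hadj hc => hC.2 u hu w hwA ?_ hadj hc⟩
      intro hw
      exact hfro u (hC.1 u hu).1 (hC.1 u hu).2 w hw hadj hc

/-- The main induction. -/
theorem ext_main (h : NoShort G) {θ b : ℕ} (hsep : Sep G θ b) (η : ℕ)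
    (hη : grow (grow (θ + 1)) ≤ η) (n : ℕ) :
    ∀ (A Y S : Finset V) (φ : V → Bool), A.card + (A \ (Y ∪ S)).card ≤ n → Y ⊆ A → S ⊆ A →
      Good G A Y S φ → (Y ∪ S).card ≤ η →
      Ext G A Y S φ (2 ^ (Y ∪ S).card * η) (2 ^ η * η) := by
  induction n using Nat.strong_induction_on with
  | _ n ih =>
  intro A Y S φ hn hY hS hg ht
  have hdc : 2 ^ (Y ∪ S).card * η ≤ 2 ^ η * η :=
    Nat.mul_le_mul_right _ (Nat.pow_le_pow_right (by norm_num) ht)
  have hηd : η ≤ 2 ^ (Y ∪ S).card * η := Nat.le_mul_of_pos_left _ (by positivity)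
  have hWA : Y ∪ S ⊆ A := Finset.union_subset hY hS
  by_cases hθ : θ < (Y ∪ S).card
  · obtain ⟨P, X, hX, hPX, hcl, hb1, hb2⟩ := hsep (Y ∪ S) hθ
    set W := Y ∪ S with hW
    let A1 : Finset V := A ∩ (P ∪ X)
    let A2 : Finset V := A \ P
    have hA1 : A1 ⊆ A := Finset.inter_subset_left
    have hA2 : A2 ⊆ A := Finset.sdiff_subset
    have hcov : ∀ v ∈ A, v ∈ A1 ∨ v ∈ A2 := by
      intro v hv
      simp only [A1, A2, Finset.mem_inter, Finset.mem_union, Finset.mem_sdiff]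
      tauto
    have hs : ∀ u ∈ A1, ∀ w ∈ A2, G.Adj u w → u ∈ A2 ∨ w ∈ A1 := by
      intro u hu w hw hadj
      simp only [A1, A2, Finset.mem_inter, Finset.mem_union, Finset.mem_sdiff] at hu hw ⊢
      by_cases huP : u ∈ P
      · exact Or.inr ⟨hw.1, hcl u huP w hadj⟩
      · exact Or.inl ⟨hu.1, huP⟩
    have hWc := Finset.card_inter_add_card_sdiff W P
    -- generic estimates for a side
    have side : ∀ (B R : Finset V), B ⊆ A → ((W ∩ B) ∪ (A1 ∩ A2) ⊆ R ∪ X) →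
        R.card + b < W.card →
        Ext G B (Y ∩ B) ((S ∩ B) ∪ (A1 ∩ A2)) φ (2 ^ (W.card - 1) * η) (2 ^ η * η) ∨
          ¬ (A1 ∩ A2 ⊆ B) := by
      intro B R hB hR hRc
      by_cases hXB : A1 ∩ A2 ⊆ B
      swap
      · exact Or.inr hXB
      left
      have heq : Y ∩ B ∪ ((S ∩ B) ∪ (A1 ∩ A2)) = (W ∩ B) ∪ (A1 ∩ A2) := by
        rw [hW, Finset.union_inter_distrib_right, Finset.union_assoc]
      have hlt : (Y ∩ B ∪ ((S ∩ B) ∪ (A1 ∩ A2))).card < W.card := by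
        rw [heq]
        have h1 := Finset.card_le_card hR
        have h2 := Finset.card_union_le R X
        omega
      have hBA : B.card < A.card := by
        refine Finset.card_lt_card (Finset.ssubset_iff_subset_ne.2 ⟨hB, ?_⟩)
        rintro rfl
        rw [heq, Finset.inter_eq_left.2 hWA] at hlt
        exact absurd (Finset.card_le_card Finset.subset_union_left) (not_le.2 hlt)
      have hU : (B \ (Y ∩ B ∪ ((S ∩ B) ∪ (A1 ∩ A2)))).card ≤ (A \ W).card := by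
        refine Finset.card_le_card ?_
        rw [heq]
        intro v hv
        simp only [Finset.mem_sdiff, Finset.mem_union, Finset.mem_inter, not_or] at hv ⊢
        exact ⟨hB hv.1, fun hw => hv.2.1 ⟨hw, hv.1⟩⟩
      have hgB : Good G B (Y ∩ B) ((S ∩ B) ∪ (A1 ∩ A2)) φ := by
        intro v hvB hvY hvS y hy hadj
        exact hg v (hB hvB) (fun h' => hvY (Finset.mem_inter.2 ⟨h', hvB⟩))
          (fun h' => hvS (Finset.mem_union_left _ (Finset.mem_inter.2 ⟨h', hvB⟩))) y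
          (Finset.mem_inter.1 hy).1 hadj
      obtain ⟨ψ, p, g, ⟨D, s1, c1, k1⟩, q⟩ := ih (B.card + (B \ (Y ∩ B ∪ ((S ∩ B) ∪ (A1 ∩ A2)))).card)
        (by omega) B (Y ∩ B) ((S ∩ B) ∪ (A1 ∩ A2)) φ le_rfl Finset.inter_subset_right
        (Finset.union_subset Finset.inter_subset_right hXB) hgB (by omega)
      refine ⟨ψ, p, g, ⟨D, s1, c1.trans ?_, k1⟩, q⟩
      exact Nat.mul_le_mul_right _ (Nat.pow_le_pow_right (by norm_num) (by omega))
    have e1 := (side A1 (W ∩ P) hA1 (by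
      intro v hv
      simp only [A1, A2, Finset.mem_inter, Finset.mem_union, Finset.mem_sdiff] at hv ⊢
      tauto) (by omega)).resolve_right (not_not.2 Finset.inter_subset_left)
    have e2 := (side A2 (W \ P) hA2 (by
      intro v hv
      simp only [A1, A2, Finset.mem_inter, Finset.mem_union, Finset.mem_sdiff] at hv ⊢
      tauto) (by omega)).resolve_right (not_not.2 Finset.inter_subset_right)
    refine split_step hA1 hA2 hcov hY hS hs hg e1 e2 (le_of_eq ?_) hdc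
    obtain ⟨m, hm⟩ : ∃ m, W.card = m + 1 := ⟨W.card - 1, by omega⟩
    rw [hm, Nat.add_sub_cancel, pow_succ]
    ring
  · by_cases hU : A ⊆ Y ∪ S
    · have hD : Closed G A Y φ (A \ Y) :=
        ⟨fun u hu => Finset.mem_sdiff.1 hu, fun u _ w hwA hwY _ _ => Finset.mem_sdiff.2 ⟨hwA, hwY⟩⟩
      have hDc : (A \ Y).card ≤ 2 ^ (Y ∪ S).card * η :=
        (Finset.card_le_card (Finset.sdiff_subset.trans hU)).trans (ht.trans hηd)
      exact ⟨φ, fun _ _ => rfl, hg,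
        ⟨A \ Y, fun s hs hsY => Finset.mem_sdiff.2 ⟨hS hs, hsY⟩, hDc, hD⟩,
        fun v hvA hvY => ⟨A \ Y, Finset.mem_sdiff.2 ⟨hvA, hvY⟩, hDc.trans hdc, hD⟩⟩
    · obtain ⟨v, hvA, hvW⟩ := Finset.not_subset.1 hU
      have hg1 : Good G A Y (insert v S) φ := fun w hwA hwY hwS y hy hadj =>
        hg w hwA hwY (fun h' => hwS (Finset.mem_insert_of_mem h')) y hy hadj
      obtain ⟨Y', φ', a1, a2, a3, a4, a5, a6, a7⟩ := close_step h A Y (insert v S) φ hY
        (Finset.insert_subset hvA hS) hg1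
      have hc1 : (Y ∪ insert v S).card ≤ θ + 1 := by
        rw [Finset.union_insert]
        have := Finset.card_insert_le v (Y ∪ S)
        omega
      have hY'c : Y'.card ≤ η := a4.trans ((grow_mono (grow_mono hc1)).trans hη)
      have hlt : (A \ (Y' ∪ ∅)).card < (A \ (Y ∪ S)).card := by
        refine Finset.card_lt_card (Finset.ssubset_iff_of_subset ?_ |>.2 ⟨v, ?_, ?_⟩)
        · intro w hw
          simp only [Finset.union_empty, Finset.mem_sdiff, Finset.mem_union, not_or] at hw ⊢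
          exact ⟨hw.1, fun h' => hw.2 (a1 h'), fun h' => hw.2 (a2 (Finset.mem_insert_of_mem h'))⟩
        · exact Finset.mem_sdiff.2 ⟨hvA, hvW⟩
        · simp only [Finset.union_empty, Finset.mem_sdiff, not_and, not_not]
          exact fun _ => a2 (Finset.mem_insert_self _ _)
      have e := ih (A.card + (A \ (Y' ∪ ∅)).card) (by omega) A Y' ∅ φ' le_rfl a3
        (Finset.empty_subset _) a7 (by rw [Finset.union_empty]; exact hY'c)
      have hg2 : Good G A Y S φ' := by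
        intro w hwA hwY hwS y hy hadj
        by_cases hwv : w = v
        · rw [a5 w (Or.inr (hwv ▸ Finset.mem_insert_self _ _)), a5 y (Or.inl hy)]
          exact hg w hwA hwY hwS y hy hadj
        · exact a6 w hwA hwY (fun h' => (Finset.mem_insert.1 h').elim hwv hwS) y hy hadj
      exact freeze_step a1 ((Finset.subset_insert _ _).trans a2) a3 (hY'c.trans hηd) hdc
        (fun w hw => a5 w (hw.imp_right Finset.mem_insert_of_mem)) hg2 e

/-- Clustered 2-colouring from small separators. -/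
theorem clustered_of_sep [Fintype V] (h : NoShort G) {θ b : ℕ} (hsep : Sep G θ b) :
    ∃ ψ : V → Bool, ∀ v : V, ∃ C : Finset V, v ∈ C ∧
      C.card ≤ 2 ^ grow (grow (θ + 1)) * grow (grow (θ + 1)) ∧
      ∀ u ∈ C, ∀ w, G.Adj u w → ψ u = ψ w → w ∈ C := by
  obtain ⟨ψ, -, -, -, q⟩ := ext_main h hsep _ le_rfl _ Finset.univ ∅ ∅ (fun _ => true) le_rfl
    (Finset.empty_subset _) (Finset.empty_subset _)
    (fun v _ _ _ y hy => absurd hy (Finset.notMem_empty _)) (by simp)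
  refine ⟨ψ, fun v => ?_⟩
  obtain ⟨C, h1, h2, h3⟩ := q v (Finset.mem_univ _) (Finset.notMem_empty _)
  exact ⟨C, h1, h2, fun u hu w hadj hc =>
    h3.2 u hu w (Finset.mem_univ _) (Finset.notMem_empty _) hadj hc⟩

end Pool.Agent.H572Z.Cl
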