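import Mathlib
import Pool.Agent.H572Z.Cl.Core

set_option autoImplicit false
set_option linter.unusedSimpArgs false

/-!
# Separators from tree decompositions, and short cycles
-/

namespace Pool.Agent.H572Z.Cl

open Finset

/-- A balanced piece of a weighted forest. -/
lemma tree_balance {I : Type*} [Fintype I] [DecidableEq I] (T : SimpleGraph I)
    (hT : T.IsAcyclic) (μ : I → ℕ) (m : ℕ) (hm : 0 < m) (hμ : ∀ i, μ i ≤ m)
    (htot : 2 * m ≤ ∑ i, μ i) :
    ∃ (t : I) (Q : Finset I), t ∉ Q ∧ (∀ x ∈ Q, ∀ y, T.Adj x y → y ∈ Q ∨ y = t) ∧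
      m ≤ ∑ i ∈ Q, μ i ∧ ∑ i ∈ Q, μ i < 2 * m := by
  classical
  have hne : Nonempty I := by
    by_contra h
    rw [not_nonempty_iff] at h
    simp at htot
    omega
  obtain ⟨t0⟩ := hne
  have hex : ∃ n, ∃ (t : I) (Q : Finset I), Q.card = n ∧ t ∉ Q ∧
      (∀ x ∈ Q, ∀ y, T.Adj x y → y ∈ Q ∨ y = t) ∧ m ≤ ∑ i ∈ Q, μ i := by
    refine ⟨_, t0, Finset.univ.erase t0, rfl, Finset.notMem_erase _ _, ?_, ?_⟩
    · intro x _ y _
      by_cases hy : y = t0
      · exact Or.inr hy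
      · exact Or.inl (Finset.mem_erase.2 ⟨hy, Finset.mem_univ _⟩)
    · have := Finset.add_sum_erase Finset.univ μ (Finset.mem_univ t0)
      have := hμ t0
      omega
  obtain ⟨t, Q, hcard, htQ, hQ, hsum⟩ := Nat.find_spec hex
  have hmin : ∀ (t' : I) (Q' : Finset I), Q'.card < Q.card → t' ∉ Q' →
      (∀ x ∈ Q', ∀ y, T.Adj x y → y ∈ Q' ∨ y = t') → ∑ i ∈ Q', μ i < m := by
    intro t' Q' h1 h2 h3
    by_contra h4
    exact Nat.find_min hex (hcard ▸ h1) ⟨t', Q', rfl, h2, h3, not_lt.1 h4⟩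
  refine ⟨t, Q, htQ, hQ, hsum, ?_⟩
  have hQne : Q.Nonempty := by
    rw [Finset.nonempty_iff_ne_empty]
    rintro rfl
    simp at hsum
    omega
  -- a base point, adjacent to `t` if possible
  obtain ⟨a, haQ, ha⟩ : ∃ a ∈ Q, (∃ x ∈ Q, T.Adj x t) → T.Adj a t := by
    by_cases h : ∃ x ∈ Q, T.Adj x t
    · obtain ⟨x, hx, hxt⟩ := h
      exact ⟨x, hx, fun _ => hxt⟩
    · obtain ⟨x, hx⟩ := hQne
      exact ⟨x, hx, fun h' => absurd h' h⟩
  let Q' : Finset I := Q.filter (fun x => ∃ p : T.Walk a x, ∀ z ∈ p.support, z ∈ Q)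
  have haQ' : a ∈ Q' := Finset.mem_filter.2 ⟨haQ, SimpleGraph.Walk.nil, by simpa using haQ⟩
  have hstep : ∀ x ∈ Q', ∀ y ∈ Q, T.Adj x y → y ∈ Q' := by
    intro x hx y hy hadj
    obtain ⟨-, p, hp⟩ := Finset.mem_filter.1 hx
    refine Finset.mem_filter.2 ⟨hy, p.concat hadj, ?_⟩
    intro z hz
    rw [SimpleGraph.Walk.support_concat, List.mem_append] at hz
    rcases hz with hz | hz
    · exact hp z hz
    · rw [List.mem_singleton.1 hz]; exact hy
  have hQ'Q : Q' ⊆ Q := Finset.filter_subset _ _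
  by_cases hall : Q ⊆ Q'
  · -- connected case
    have huniq : ∀ x ∈ Q, T.Adj x t → x = a := by
      intro x hx hxt
      by_contra hxa
      have hat : T.Adj a t := ha ⟨x, hx, hxt⟩
      obtain ⟨-, p, hp⟩ := Finset.mem_filter.1 (hall hx)
      let q : T.Walk a x := SimpleGraph.Walk.cons hat (SimpleGraph.Walk.cons hxt.symm
        SimpleGraph.Walk.nil)
      have hq : q.IsPath := by
        simp [q, SimpleGraph.Walk.isPath_def, hat.ne, hxt.ne', Ne.symm hxa]
      have heq : (⟨q, hq⟩ : T.Path a x) = p.toPath := (hT.subsingleton_path a x).elim _ _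
      have htq : t ∈ q.support := by simp [q]
      have htp : t ∈ (p.toPath : T.Walk a x).support := by
        rw [← heq]; exact htq
      exact htQ (hp t (p.support_toPath_subset_support htp))
    have h1 := hmin a (Q.erase a) (Finset.card_erase_lt_of_mem haQ) (Finset.notMem_erase _ _) (by
      intro x hx y hadj
      obtain ⟨hxa, hxQ⟩ := Finset.mem_erase.1 hx
      by_cases hya : y = a
      · exact Or.inr hya
      · rcases hQ x hxQ y hadj with h | h
        · exact Or.inl (Finset.mem_erase.2 ⟨hya, h⟩)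
        · exact absurd (huniq x hxQ (h ▸ hadj)) hxa)
    have h2 := Finset.add_sum_erase Q μ haQ
    have h3 := hμ a
    omega
  · have hss : Q' ⊂ Q := Finset.ssubset_iff_subset_ne.2 ⟨hQ'Q, fun h => hall (h ▸ le_rfl)⟩
    have h1 := hmin t Q' (Finset.card_lt_card hss) (fun h => htQ (hQ'Q h)) (by
      intro x hx y hadj
      rcases hQ x (hQ'Q hx) y hadj with h | h
      · exact Or.inl (hstep x hx y h hadj)
      · exact Or.inr h)
    have h2 := hmin t (Q \ Q') (Finset.card_lt_card (Finset.sdiff_ssubset hQ'Q ⟨a, haQ'⟩))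
      (fun h => htQ (Finset.mem_sdiff.1 h).1) (by
      intro x hx y hadj
      obtain ⟨hxQ, hxQ'⟩ := Finset.mem_sdiff.1 hx
      rcases hQ x hxQ y hadj with h | h
      · exact Or.inl (Finset.mem_sdiff.2 ⟨h, fun hy => hxQ' (hstep y hy x hxQ hadj.symm)⟩)
      · exact Or.inr h)
    have h3 := Finset.sum_sdiff (f := μ) hQ'Q
    omega

/-- A tree decomposition with bags of size at most `b` gives small separators. -/
lemma sep_of_decomposition {V I : Type*} [Fintype V] [DecidableEq V] [Fintype I]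
    (G : SimpleGraph V) (T : SimpleGraph I) (hT : T.IsAcyclic) (B : I → Finset V) (b : ℕ)
    (hb : ∀ i, (B i).card ≤ b) (hv : ∀ v : V, ∃ i, v ∈ B i)
    (he : ∀ u v : V, G.Adj u v → ∃ i, u ∈ B i ∧ v ∈ B i)
    (hc : ∀ v : V, (T.induce {i | v ∈ B i}).Preconnected) : Sep G (5 * b + 2) b := by
  classical
  intro W hW
  choose τ hτ using hv
  let μ : I → ℕ := fun i => (W.filter (fun w => τ w = i)).card
  have hμQ : ∀ Q : Finset I, ∑ i ∈ Q, μ i = (W.filter (fun w => τ w ∈ Q)).card := by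
    intro Q
    rw [Finset.card_eq_sum_card_fiberwise (f := τ) (s := W.filter (fun w => τ w ∈ Q)) (t := Q)
      (fun w hw => (Finset.mem_filter.1 (Finset.mem_coe.1 hw)).2)]
    refine Finset.sum_congr rfl fun i hi => ?_
    simp only [μ]
    congr 1
    ext w
    simp only [Finset.mem_filter]
    constructor
    · rintro ⟨h1, h2⟩
      exact ⟨⟨h1, h2 ▸ hi⟩, h2⟩
    · rintro ⟨⟨h1, -⟩, h2⟩
      exact ⟨h1, h2⟩
  have hμb : ∀ i, μ i ≤ b := by
    intro i
    refine le_trans (Finset.card_le_card ?_) (hb i)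
    intro w hw
    obtain ⟨-, h2⟩ := Finset.mem_filter.1 hw
    exact h2 ▸ hτ w
  obtain ⟨t, Q, htQ, hQ, h1, h2⟩ := tree_balance T hT μ (2 * b + 1) (by omega)
    (fun i => (hμb i).trans (by omega)) (by
      rw [hμQ]
      simp only [Finset.mem_univ, Finset.filter_true]
      omega)
  rw [hμQ] at h1 h2
  have hstay : ∀ v : V, v ∉ B t → ∀ i j, v ∈ B i → v ∈ B j → i ∈ Q → j ∈ Q := by
    intro v hvt i j hi hj hiQ
    obtain ⟨p⟩ := hc v ⟨i, hi⟩ ⟨j, hj⟩
    have key : ∀ (x y : {i | v ∈ B i}) (_ : (T.induce {i | v ∈ B i}).Walk x y),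
        x.1 ∈ Q → y.1 ∈ Q := by
      intro x y p
      induction p with
      | nil => exact id
      | cons hadj p ih =>
        rename_i x y z
        intro hx
        refine ih ((hQ x.1 hx y.1 hadj).resolve_right fun h => hvt ?_)
        have hy : v ∈ B y.1 := y.2
        exact h ▸ hy
    exact key _ _ p hiQ
  let P : Finset V := Finset.univ.filter (fun v => v ∉ B t ∧ τ v ∈ Q)
  have hP : ∀ v, v ∈ P ↔ v ∉ B t ∧ τ v ∈ Q := by intro v; simp [P]
  refine ⟨P, B t, hb t, ?_, ?_, ?_, ?_⟩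
  · rw [Finset.disjoint_left]
    intro v hv1 hv2
    exact ((hP v).1 hv1).1 hv2
  · intro u hu w hadj
    by_cases hw : w ∈ B t
    · exact Or.inr hw
    · left
      obtain ⟨i, hui, hwi⟩ := he u w hadj
      obtain ⟨hu1, hu2⟩ := (hP u).1 hu
      exact (hP w).2 ⟨hw, hstay w hw i (τ w) hwi (hτ w) (hstay u hu1 (τ u) i (hτ u) hui hu2)⟩
  · have hsub : W.filter (fun w => τ w ∈ Q) ⊆ (W ∩ P) ∪ B t := by
      intro w hw
      obtain ⟨h3, h4⟩ := Finset.mem_filter.1 hw
      by_cases hwt : w ∈ B t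
      · exact Finset.mem_union_right _ hwt
      · exact Finset.mem_union_left _ (Finset.mem_inter.2 ⟨h3, (hP w).2 ⟨hwt, h4⟩⟩)
    have h3 := Finset.card_le_card hsub
    have h4 := Finset.card_union_le (W ∩ P) (B t)
    have h5 := hb t
    omega
  · have hsub : W ∩ P ⊆ W.filter (fun w => τ w ∈ Q) := by
      intro w hw
      obtain ⟨h3, h4⟩ := Finset.mem_inter.1 hw
      exact Finset.mem_filter.2 ⟨h3, ((hP w).1 h4).2⟩
    have h3 := Finset.card_le_card hsub
    have h4 := Finset.card_inter_add_card_sdiff W P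
    omega

/-- Graphs without cycles of length 3, 4, 6. -/
lemma noShort_of_cycles {V : Type*} (G : SimpleGraph V)
    (h : ∀ (a : V) (w : G.Walk a a), w.IsCycle → w.length ≠ 3 ∧ w.length ≠ 4 ∧ w.length ≠ 6) :
    NoShort G := by
  refine ⟨?_, ?_, ?_⟩
  · intro a b c h1 h2 h3
    refine (h a (.cons h1 (.cons h2 (.cons h3 .nil))) ?_).1 rfl
    simp [SimpleGraph.Walk.isCycle_def, SimpleGraph.Walk.isTrail_def, h1.ne, h2.ne, h3.ne,
      h1.ne', h2.ne', h3.ne']
  · intro a b x y hab h1 h2 h3 h4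
    by_contra hxy
    refine (h a (.cons h1.symm (.cons h2 (.cons h4.symm (.cons h3 .nil)))) ?_).2.1 rfl
    simp [SimpleGraph.Walk.isCycle_def, SimpleGraph.Walk.isTrail_def, h1.ne, h2.ne, h3.ne,
      h1.ne', h2.ne', h3.ne', h4.ne, h4.ne', hab, hab.symm, hxy, Ne.symm hxy]
  · intro a b c d e f h1 h2 h3 h4 h5 h6 n1 n2 n3 n4 n5 n6 n7 n8 n9
    refine (h a (.cons h1 (.cons h2 (.cons h3 (.cons h4 (.cons h5 (.cons h6 .nil)))))) ?_).2.2 rfl
    simp [SimpleGraph.Walk.isCycle_def, SimpleGraph.Walk.isTrail_def, h1.ne, h2.ne, h3.ne,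
      h1.ne', h2.ne', h3.ne', h4.ne, h4.ne', h5.ne, h5.ne', h6.ne, h6.ne', n1, n2, n3, n4, n5, n6,
      n7, n8, n9, n1.symm, n2.symm, n3.symm, n4.symm, n5.symm, n6.symm, n7.symm, n8.symm, n9.symm]

lemma noShort_of_egirth {V : Type*} (G : SimpleGraph V) (h : (7 : ℕ∞) ≤ G.egirth) :
    NoShort G := by
  refine noShort_of_cycles G fun a w hw => ?_
  have h1 := SimpleGraph.le_egirth.1 h a w hw
  have h2 : 7 ≤ w.length := by exact_mod_cast h1
  omega

/-- From closed sets to connected monochromatic sets. -/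
lemma card_le_of_closed {V : Type*} (G : SimpleGraph V) (ψ : V → Bool) (c : ℕ)
    (h : ∀ v : V, ∃ C : Finset V, v ∈ C ∧ C.card ≤ c ∧
      ∀ u ∈ C, ∀ w, G.Adj u w → ψ u = ψ w → w ∈ C)
    (s : Finset V) (hs : ∀ x ∈ s, ∀ y ∈ s, ψ x = ψ y)
    (hc : (G.induce (s : Set V)).Connected) : s.card ≤ c := by
  obtain ⟨v⟩ := hc.nonempty
  obtain ⟨C, hvC, hCc, hC⟩ := h v.1
  refine le_trans (Finset.card_le_card ?_) hCc
  intro x hx
  have key : ∀ (a b : (s : Set V)) (_ : (G.induce (s : Set V)).Walk a b), a.1 ∈ C → b.1 ∈ C := by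
    intro a b p
    induction p with
    | nil => exact id
    | cons hadj p ih =>
      rename_i u v w
      intro hu
      exact ih (hC u.1 hu v.1 hadj (hs _ u.2 _ v.2))
  obtain ⟨p⟩ := hc.preconnected v ⟨x, hx⟩
  exact key v ⟨x, hx⟩ p hvC

/-- The clustering constant. -/
def cst (b : ℕ) : ℕ := 2 ^ grow (grow (5 * b + 3)) * grow (grow (5 * b + 3))

/-- **Main theorem.** -/
theorem main {V I : Type*} [Fintype V] [Fintype I]
    (G : SimpleGraph V) (hG : NoShort G) (T : SimpleGraph I) (hT : T.IsAcyclic)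
    (B : I → Finset V) (b : ℕ)
    (hb : ∀ i, (B i).card ≤ b) (hv : ∀ v : V, ∃ i, v ∈ B i)
    (he : ∀ u v : V, G.Adj u v → ∃ i, u ∈ B i ∧ v ∈ B i)
    (hc : ∀ v : V, (T.induce {i | v ∈ B i}).Preconnected) :
    ∃ f : V → Fin 2, ∀ s : Finset V, (∀ x ∈ s, ∀ y ∈ s, f x = f y) →
      (G.induce (s : Set V)).Connected → s.card ≤ cst b := by
  classical
  obtain ⟨ψ, hψ⟩ := clustered_of_sep hG (sep_of_decomposition G T hT B b hb hv he hc)
  refine ⟨fun v => if ψ v then 1 else 0, fun s hs hconn => ?_⟩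
  refine card_le_of_closed G ψ _ hψ s (fun x hx y hy => ?_) hconn
  have : (if ψ x then (1 : Fin 2) else 0) = if ψ y then 1 else 0 := hs x hx y hy
  revert this
  cases ψ x <;> cases ψ y <;> simp

end Pool.Agent.H572Z.Cl
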