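import Mathlib
import Pool.Agent.H572Z.Cl.Tree

set_option autoImplicit false

/-!
# Separators from path decompositions
-/

namespace Pool.Agent.H572Z.Cl

open Finset

/-- A path decomposition with bags of size at most `b` gives small separators. -/
lemma sep_of_path {V : Type*} [Fintype V] [DecidableEq V] (G : SimpleGraph V) {n : ℕ}
    (B : Fin n → Finset V) (b : ℕ)
    (hb : ∀ i, (B i).card ≤ b) (hv : ∀ v : V, ∃ i, v ∈ B i)
    (he : ∀ u v : V, G.Adj u v → ∃ i, u ∈ B i ∧ v ∈ B i)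
    (hc : ∀ (v : V) (i j l : Fin n), i ≤ j → j ≤ l → v ∈ B i → v ∈ B l → v ∈ B j) :
    Sep G (5 * b + 2) b := by
  classical
  intro W hW
  choose τ hτ using hv
  have hex : ∃ j : ℕ, 2 * b + 1 ≤ (W.filter (fun w => (τ w : ℕ) ≤ j)).card := by
    refine ⟨n, ?_⟩
    rw [Finset.filter_true_of_mem (fun w _ => (τ w).2.le)]
    omega
  have h1 := Nat.find_spec hex
  set j := Nat.find hex with hj
  have h2 : (W.filter (fun w => (τ w : ℕ) < j)).card < 2 * b + 1 := by
    rcases Nat.eq_zero_or_pos j with h0 | h0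
    · simp [h0]
    · have h3 := Nat.find_min hex (m := j - 1) (by omega)
      have h4 : W.filter (fun w => (τ w : ℕ) < j) = W.filter (fun w => (τ w : ℕ) ≤ j - 1) :=
        Finset.filter_congr (fun w _ => by omega)
      rw [h4]
      omega
  have hjn : j < n := by
    by_contra h
    rw [Finset.filter_true_of_mem (fun w _ => lt_of_lt_of_le (τ w).2 (not_lt.1 h))] at h2
    omega
  let t : Fin n := ⟨j, hjn⟩
  let P : Finset V := Finset.univ.filter (fun v => v ∉ B t ∧ τ v < t)
  have hP : ∀ v, v ∈ P ↔ v ∉ B t ∧ τ v < t := by intro v; simp [P]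
  refine ⟨P, B t, hb t, ?_, ?_, ?_, ?_⟩
  · rw [Finset.disjoint_left]
    intro v hv1 hv2
    exact ((hP v).1 hv1).1 hv2
  · intro u hu w hadj
    by_cases hw : w ∈ B t
    · exact Or.inr hw
    · left
      obtain ⟨i, hui, hwi⟩ := he u w hadj
      obtain ⟨hu1, hu2⟩ := (hP u).1 hu
      have hi : i < t := by
        by_contra h
        exact hu1 (hc u (τ u) t i hu2.le (not_lt.1 h) (hτ u) hui)
      refine (hP w).2 ⟨hw, ?_⟩
      by_contra h
      exact hw (hc w i t (τ w) hi.le (not_lt.1 h) hwi (hτ w))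
  · have hsub : W.filter (fun w => (τ w : ℕ) ≤ j) ⊆ (W ∩ P) ∪ B t := by
      intro w hw
      obtain ⟨h3, h4⟩ := Finset.mem_filter.1 hw
      by_cases hwt : w ∈ B t
      · exact Finset.mem_union_right _ hwt
      · refine Finset.mem_union_left _ (Finset.mem_inter.2 ⟨h3, (hP w).2 ⟨hwt, ?_⟩⟩)
        refine lt_of_le_of_ne h4 fun h => hwt ?_
        exact h ▸ hτ w
    have h3 := Finset.card_le_card hsub
    have h4 := Finset.card_union_le (W ∩ P) (B t)
    have h5 := hb t
    omega
  · have hsub : W ∩ P ⊆ W.filter (fun w => (τ w : ℕ) < j) := by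
      intro w hw
      obtain ⟨h3, h4⟩ := Finset.mem_inter.1 hw
      exact Finset.mem_filter.2 ⟨h3, ((hP w).1 h4).2⟩
    have h3 := Finset.card_le_card hsub
    have h4 := Finset.card_inter_add_card_sdiff W P
    omega

/-- The theorem for path decompositions. -/
theorem main_path {V : Type*} [Fintype V] (G : SimpleGraph V) (hG : NoShort G) {n : ℕ}
    (B : Fin n → Finset V) (b : ℕ)
    (hb : ∀ i, (B i).card ≤ b) (hv : ∀ v : V, ∃ i, v ∈ B i)
    (he : ∀ u v : V, G.Adj u v → ∃ i, u ∈ B i ∧ v ∈ B i)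
    (hc : ∀ (v : V) (i j l : Fin n), i ≤ j → j ≤ l → v ∈ B i → v ∈ B l → v ∈ B j) :
    ∃ f : V → Fin 2, ∀ s : Finset V, (∀ x ∈ s, ∀ y ∈ s, f x = f y) →
      (G.induce (s : Set V)).Connected → s.card ≤ cst b := by
  classical
  obtain ⟨ψ, hψ⟩ := clustered_of_sep hG (sep_of_path G B b hb hv he hc)
  refine ⟨fun v => if ψ v then 1 else 0, fun s hs hconn => ?_⟩
  refine card_le_of_closed G ψ _ hψ s (fun x hx y hy => ?_) hconn
  have : (if ψ x then (1 : Fin 2) else 0) = if ψ y then 1 else 0 := hs x hx y hy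
  revert this
  cases ψ x <;> cases ψ y <;> simp

end Pool.Agent.H572Z.Cl
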